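import Pool.Agent.Lib.MP_c7af3c_ag.T2C.Base
import Pool.Agent.Lib.MP_c7af3c_ag.EDGE.C2.Iface

/-!
# MP_c7af3c_ag, project T2C: module statements of the regular part and of the singular part up
to the integrable plane
`n = c + 3`, `∑ d = n + 2`, all `d m ≥ 2`, `c ≥ 2`. Each owner proves `theorem xyz : XyzStatement`
in T2C/Hnn/Xyz.lean (namespace Pool.Agent.T2C.Hnn).
-/

set_option autoImplicit false

namespace Pool.Agent.T2C

open MvPolynomial Pool.Agent.Gen Pool.Agent.Sharp Pool.Agent.Edge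
open Pool.Agent.T2 (Fk Rac lnf Sizes Sit)

/-! ### sizes -/

/-- Row KER: the kernel of `F'(x)` is spanned by `x`, the `W(p,q)` and the `V(A l)`. -/
def KerStatement : Prop := ∀ (L : Type) [Field L] (n c : ℕ) (d : Fin c → ℕ) (D : DSys L n c d)
  (x : Fin (n + 1) → L) (j0 : Fin (n + 1)), x j0 = 1 → (∀ m, eval x (D.F m) = 0) →
  Module.finrank L (KerF D x) + c = n + 1 ∧
  (∀ G : TP L n c, (∀ m, (G m).IsHomogeneous (d m)) → (∀ m, eval x (G m) = 0) →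
    VT D x G ∈ KerF D x) ∧
  Submodule.span L ({x} ∪ {u | ∃ p q, u = WT D x p q} ∪
    {u | ∃ (A : TP L n c) (i : Fin (n + 1)), Adm d A ∧ u = VT D x (mulT A (lf x j0 i))}) =
    KerF D x

/-- Row LOC: the size of the determinant of three columns `E x + V(G)` of the kernel. -/
def LocStatement : Prop := ∀ (L : Type) [Field L] (Γ : Type) [LinearOrderedCommGroupWithZero Γ]
  (n c : ℕ) (d : Fin c → ℕ) (D : DSys L n c d) (x : Fin (n + 1) → L) (j0 : Fin (n + 1)),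
  n = c + 3 → ∑ m, d m = n + 2 → x j0 = 1 → (∀ m, eval x (D.F m) = 0) →
  ∀ (v : Valuation L Γ) (M : Γ), 1 ≤ M →
  (∀ m I, I.degree = d m → ∀ f, v f ≤ 1 → v (D.del m I f) ≤ M) →
  ∀ (s r : ℕ) (ε : (Unit ⊕ (Fin s ⊕ Fin r)) ⊕ Fin c ≃ Fin (n + 1))
    (E : Fin s ⊕ Fin r → Matrix (Fin (n + 1)) (Fin (n + 1)) L)
    (G : Fin s ⊕ Fin r → TP L n c) (g : Fin s ⊕ Fin r → Γ)
    (η : Fin s → Fin (n + 1) → L) (w : Fin r → Fin (n + 1) → L),
  (∀ a m, (G a m).IsHomogeneous (d m)) → (∀ a p q, v (E a p q) ≤ g a) →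
  (∀ a m I, v (coeff I (G a m)) ≤ g a) →
  (∀ a, Sum.elim η w a = (E a).mulVec x + VT D x (G a)) →
  (∀ a, Sum.elim η w a ∈ KerF D x) →
  ∀ j, v (dt D x j0 ε η w) * v (x j) ≤ M ^ (3 + c) * ∏ a, g a

/-- Row TAUB: the contracted determinants of one block are in `k`. -/
def TaubStatement : Prop := LocStatement → ∀ (Ω : Type) [Field Ω] [CharZero Ω] (k : Subfield Ω)
  (Γ : Type) [LinearOrderedCommGroupWithZero Γ] (S : Sizes Ω k Γ) (n c : ℕ) (d : Fin c → ℕ)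
  (D : DSys Ω n c d) (x : Fin (n + 1) → Ω) (j0 : Fin (n + 1)), n = c + 3 → ∑ m, d m = n + 2 →
  Sit S D x j0 →
  ∀ (s r : ℕ) (ε : (Unit ⊕ (Fin s ⊕ Fin r)) ⊕ Fin c ≃ Fin (n + 1))
    (η : Fin s → Fin (n + 1) → Ω), (∀ a, Bc D x k (η a)) →
  ∀ A : TP Ω n c, Tk k d A → ∀ i, tauB D x j0 ε η A i ∈ k

/-- Row HULL: the hull over `k` has dimension at least 3. -/
def HullStatement : Prop := ∀ (Ω : Type) [Field Ω] [CharZero Ω] (k : Subfield Ω)
  (Γ : Type) [LinearOrderedCommGroupWithZero Γ] (S : Sizes Ω k Γ) (n c : ℕ) (d : Fin c → ℕ)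
  (D : DSys Ω n c d) (x : Fin (n + 1) → Ω) (j0 : Fin (n + 1)), Sit S D x j0 →
  ∃ (m : ℕ) (t : Fin (m + 1) → Fin (n + 1)) (P : Fin (m + 1) → Fin (n + 1) → Ω),
    2 ≤ m ∧ Hull k x j0 t P

/-- Row VANB: a block which is not degenerate. -/
def VanbStatement : Prop := LocStatement → TaubStatement →
  ∀ (Ω : Type) [Field Ω] [CharZero Ω] (k : Subfield Ω)
  (Γ : Type) [LinearOrderedCommGroupWithZero Γ] (S : Sizes Ω k Γ) (n c : ℕ) (d : Fin c → ℕ)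
  (D : DSys Ω n c d) (x : Fin (n + 1) → Ω) (j0 : Fin (n + 1)), n = c + 3 → ∑ m, d m = n + 2 →
  Sit S D x j0 →
  ∀ (s r : ℕ) (ε : (Unit ⊕ (Fin s ⊕ Fin r)) ⊕ Fin c ≃ Fin (n + 1))
    (η : Fin s → Fin (n + 1) → Ω), 1 ≤ r → (∀ a, Bc D x k (η a)) →
  ∀ A1 : TP Ω n c, Tk k d A1 → ∀ i1 : Fin r → Fin (n + 1),
  (dt D x j0 ε η fun b => VT D x (mulT A1 (lf x j0 (i1 b)))) ≠ 0 →
  ∀ (m : ℕ) (t : Fin (m + 1) → Fin (n + 1)) (P : Fin (m + 1) → Fin (n + 1) → Ω),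
  Hull k x j0 t P → m ≤ r ∧ (m = r →
    (∀ A : TP Ω n c, Adm d A → ∀ f, VT D x (mulT A (lam t P f)) ∈ Hs x η) ∧
    ∀ t' : Fin r → Fin (n + 1), (∀ b : Fin r, ∀ b' : Fin (m + 1), (b : ℕ) + 1 = b' → t' b = t b') →
      (dt D x j0 ε η fun b => VT D x (mulT A1 (lf x j0 (t' b)))) ≠ 0)

/-- Row W2 (strong form): there are at most two independent vectors among `x` and ALL bounded
columns. -/
def W2Statement : Prop := KerStatement → LocStatement → TaubStatement → HullStatement →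
  VanbStatement → ∀ (Ω : Type) [Field Ω] [CharZero Ω] (k : Subfield Ω)
  (Γ : Type) [LinearOrderedCommGroupWithZero Γ] (S : Sizes Ω k Γ) (n c : ℕ) (d : Fin c → ℕ)
  (D : DSys Ω n c d) (x : Fin (n + 1) → Ω) (j0 : Fin (n + 1)), n = c + 3 → ∑ m, d m = n + 2 →
  Sit S D x j0 → Module.finrank Ω (Tb D x k) ≤ 2

/-- Row WORDB: the traces of all words are in `k`. -/
def WordbStatement : Prop := LocStatement → TaubStatement →
  ∀ (Ω : Type) [Field Ω] [CharZero Ω] (k : Subfield Ω)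
  (Γ : Type) [LinearOrderedCommGroupWithZero Γ] (S : Sizes Ω k Γ) (n c : ℕ) (d : Fin c → ℕ)
  (D : DSys Ω n c d) (x : Fin (n + 1) → Ω) (j0 : Fin (n + 1)), n = c + 3 → ∑ m, d m = n + 2 →
  Sit S D x j0 →
  ∀ (s r : ℕ) (η : Fin s → Fin (n + 1) → Ω), s + r = 3 → (∀ a, Bc D x k (η a)) →
  ∀ (t : Fin (r + 1) → Fin (n + 1)) (P : Fin (r + 1) → Fin (n + 1) → Ω), Hull k x j0 t P →
  ∀ A0 : TP Ω n c, Tk k d A0 →
  LinearIndependent Ω (Sum.elim (fun _ : Unit => x)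
    (Sum.elim η fun b : Fin r => VT D x (mulT A0 (lf x j0 (t b.succ))))) →
  ∀ a : TP Ω n c → Matrix (Fin r) (Fin r) Ω,
    (∀ A : TP Ω n c, Adm d A → ∀ j : Fin r,
      VT D x (mulT A (lf x j0 (t j.succ))) -
        ∑ i : Fin r, a A i j • VT D x (mulT A0 (lf x j0 (t i.succ))) ∈ Hs x η) →
    ∀ l : List (TP Ω n c), (∀ A ∈ l, Tk k d A) → Matrix.trace ((l.map a).prod) ∈ k

/-- Row ANN0: no extra column, a component of degree at least 4 (for degree 4 the bivector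
`x ∧ V(w X_j0^2 e_m0)` is over `k`, so that `x` would be on a line over `k`). -/
def Ann0Statement : Prop := HullStatement → ∀ (Ω : Type) [Field Ω] [CharZero Ω] (k : Subfield Ω)
  (Γ : Type) [LinearOrderedCommGroupWithZero Γ] (S : Sizes Ω k Γ) (n c : ℕ) (d : Fin c → ℕ)
  (D : DSys Ω n c d) (x : Fin (n + 1) → Ω) (j0 : Fin (n + 1)), Sit S D x j0 →
  ∀ (η : Fin 0 → Fin (n + 1) → Ω) (m0 : Fin c), 4 ≤ d m0 → AnnA k D x η m0

/-- Row ANN1: one extra bounded column, a component of degree 5. -/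
def Ann1Statement : Prop := ∀ (Ω : Type) [Field Ω] [CharZero Ω] (k : Subfield Ω)
  (Γ : Type) [LinearOrderedCommGroupWithZero Γ] (S : Sizes Ω k Γ) (n c : ℕ) (d : Fin c → ℕ)
  (D : DSys Ω n c d) (x : Fin (n + 1) → Ω) (j0 : Fin (n + 1)), Sit S D x j0 →
  ∀ (η : Fin 1 → Fin (n + 1) → Ω) (m0 : Fin c), 5 ≤ d m0 → Bc D x k (η 0) →
    LinearIndependent Ω ![x, η 0] → AnnJ k D x j0 η m0

/-- Row NOPL: for all types but (2,5) the point is on no plane over `k`. -/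
def NoplStatement : Prop := ∀ (Ω : Type) [Field Ω] [CharZero Ω] (k : Subfield Ω)
  (Γ : Type) [LinearOrderedCommGroupWithZero Γ] (S : Sizes Ω k Γ) (n c : ℕ) (d : Fin c → ℕ)
  (D : DSys Ω n c d) (x : Fin (n + 1) → Ω) (j0 : Fin (n + 1)), n = c + 3 → ∑ m, d m = n + 2 →
  (∀ m, 2 ≤ d m) → 2 ≤ c → (∀ m, d m ≤ 4) → Sit S D x j0 →
  ∀ (m : ℕ) (t : Fin (m + 1) → Fin (n + 1)) (P : Fin (m + 1) → Fin (n + 1) → Ω),
    Hull k x j0 t P → 3 ≤ m

/-- Row NO3: for the types (2,3,3), (2,2,2,3), (2,2,2,2,2) the point is on no three-dimensional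
space over `k`. -/
def No3Statement : Prop := ∀ (Ω : Type) [Field Ω] [CharZero Ω] (k : Subfield Ω)
  (Γ : Type) [LinearOrderedCommGroupWithZero Γ] (S : Sizes Ω k Γ) (n c : ℕ) (d : Fin c → ℕ)
  (D : DSys Ω n c d) (x : Fin (n + 1) → Ω) (j0 : Fin (n + 1)), n = c + 3 → ∑ m, d m = n + 2 →
  (∀ m, 2 ≤ d m) → (∀ m, d m ≤ 3) → Sit S D x j0 →
  ∀ (m : ℕ) (t : Fin (m + 1) → Fin (n + 1)) (P : Fin (m + 1) → Fin (n + 1) → Ω),
    Hull k x j0 t P → 4 ≤ m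

/-! ### the regular case -/

/-- Row REG: the regular case. Either all bounded columns are multiples of `x`, `r = 3`, or
`r = 2`, and the span of `x` and the bounded columns is `⟨x, η⟩`. -/
def RegStatement : Prop := KerStatement → LocStatement → TaubStatement → HullStatement →
  VanbStatement → W2Statement → WordbStatement →
  ∀ (Ω : Type) [Field Ω] [CharZero Ω] (k : Subfield Ω)
  (Γ : Type) [LinearOrderedCommGroupWithZero Γ] (S : Sizes Ω k Γ) (n c : ℕ) (d : Fin c → ℕ)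
  (D : DSys Ω n c d) (x : Fin (n + 1) → Ω) (j0 : Fin (n + 1)), n = c + 3 → ∑ m, d m = n + 2 →
  Sit S D x j0 →
  (∃ A : TP Ω n c, Tk k d A ∧ 4 ≤ Module.finrank Ω (EA D x j0 k A)) →
  ∃ (s r : ℕ) (η : Fin s → Fin (n + 1) → Ω) (t : Fin (r + 1) → Fin (n + 1))
    (P : Fin (r + 1) → Fin (n + 1) → Ω) (A0 : TP Ω n c),
    (∀ a, Bc D x k (η a)) ∧ (∀ u, Bc D x k u → u ∈ Hs x η) ∧ GeoA k D x j0 η t P A0

/-- Row EXTA: passage to algebraically closed fields. -/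
def ExtaStatement : Prop := C2.LdStatement → C2.DexStatement →
  ∀ (Ω : Type) [Field Ω] [CharZero Ω] (k : Subfield Ω) (n c : ℕ) (d : Fin c → ℕ)
  (D : DSys Ω n c d) (x : Fin (n + 1) → Ω)
  (j0 : Fin (n + 1)) (s r : ℕ) (η : Fin s → Fin (n + 1) → Ω) (t : Fin (r + 1) → Fin (n + 1))
  (P : Fin (r + 1) → Fin (n + 1) → Ω) (A0 : TP Ω n c),
  GeoA k D x j0 η t P A0 →
  ∃ (Ω' : Type) (_ : Field Ω') (_ : CharZero Ω') (_ : IsAlgClosed Ω') (K : Subfield Ω')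
    (D' : DSys Ω' n c d) (x' : Fin (n + 1) → Ω') (η' : Fin s → Fin (n + 1) → Ω')
    (P' : Fin (r + 1) → Fin (n + 1) → Ω') (A0' : TP Ω' n c),
    IsAlgClosed K ∧ GeoA K D' x' j0 η' t P' A0' ∧
    (∀ m0, AnnA k D x η m0 → AnnA K D' x' η' m0) ∧
    ∀ m0 (h : s = 1), AnnJ k D x j0 (η ∘ Fin.cast h.symm) m0 →
      AnnJ K D' x' j0 (η' ∘ Fin.cast h.symm) m0

/-- Row COREA: the matrices (with the equivariance lemma). -/
def CoreaStatement : Prop := KerStatement → ∀ (Ω : Type) [Field Ω] [CharZero Ω]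
  (k : Subfield Ω) (n c : ℕ) (d : Fin c → ℕ) (D : DSys Ω n c d)
  (x : Fin (n + 1) → Ω) (j0 : Fin (n + 1)) (s r : ℕ) (η : Fin s → Fin (n + 1) → Ω)
  (t : Fin (r + 1) → Fin (n + 1)) (P : Fin (r + 1) → Fin (n + 1) → Ω)
  (A0 : TP Ω n c), n = c + 3 → (∀ m, 2 ≤ d m) → GeoA k D x j0 η t P A0 →
  ∃ a : TP Ω r c →ₗ[Ω] Matrix (Fin r) (Fin r) Ω,
    CoreA k d (fun i => x (t i)) a ∧
    (∀ m0, 3 ≤ d m0 → AnnA k D x η m0 → AnnC k d (fun i => x (t i)) a m0) ∧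
    ∀ m0, 3 ≤ d m0 → ∀ w : MvPolynomial (Fin (r + 1)) Ω, Fk k 2 w →
      (∀ C' : MvPolynomial (Fin (r + 1)) Ω, C'.IsHomogeneous (d m0 - 3) →
        a (Pi.single m0 (w * C')) = 0) → AnnH D x η m0 (rename t w)

/-- Row ENDA: the algebra of endomorphisms. -/
def EndaStatement : Prop := ∀ (Ω : Type) [Field Ω] [CharZero Ω] [IsAlgClosed Ω]
  (K : Subfield Ω), IsAlgClosed K → ∀ (c : ℕ) (d : Fin c → ℕ) (r : ℕ) (y : Fin (r + 1) → Ω)
  (a : TP Ω r c →ₗ[Ω] Matrix (Fin r) (Fin r) Ω), (∀ m, 2 ≤ d m) → 1 ≤ r →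
  CoreA K d y a → PenK K d y a

/-- Row K25: the type (2,5), the point in a plane over `K`. -/
def K25Statement : Prop := ∀ (Ω : Type) [Field Ω] [CharZero Ω] [IsAlgClosed Ω]
  (K : Subfield Ω), IsAlgClosed K → ∀ (n : ℕ) (d : Fin 2 → ℕ) (D : DSys Ω n 2 d)
  (x : Fin (n + 1) → Ω) (j0 : Fin (n + 1)) (η : Fin 1 → Fin (n + 1) → Ω)
  (t : Fin (2 + 1) → Fin (n + 1)) (P : Fin (2 + 1) → Fin (n + 1) → Ω)
  (A0 : TP Ω n 2) (m0 : Fin 2), n = 5 → d m0 = 5 → (∀ m, m ≠ m0 → d m = 2) →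
  GeoA K D x j0 η t P A0 → AnnJ K D x j0 η m0 →
  ∀ a : TP Ω 2 2 →ₗ[Ω] Matrix (Fin 2) (Fin 2) Ω, CoreA K d (fun i => x (t i)) a →
  PenK K d (fun i => x (t i)) a →
  (∀ w : MvPolynomial (Fin (2 + 1)) Ω, Fk K 2 w →
      (∀ C' : MvPolynomial (Fin (2 + 1)) Ω, C'.IsHomogeneous (d m0 - 3) →
        a (Pi.single m0 (w * C')) = 0) → AnnH D x η m0 (rename t w)) → False

/-- Row ASMA: the regular case is impossible. -/
def AsmaStatement : Prop := C2.LdStatement → C2.DexStatement → KerStatement → LocStatement →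
  TaubStatement → HullStatement → VanbStatement → W2Statement → WordbStatement →
  Ann0Statement → Ann1Statement → NoplStatement → No3Statement → RegStatement →
  ExtaStatement → CoreaStatement → EndaStatement → K25Statement →
  ∀ (Ω : Type) [Field Ω] [CharZero Ω] (k : Subfield Ω)
  (Γ : Type) [LinearOrderedCommGroupWithZero Γ] (S : Sizes Ω k Γ) (n c : ℕ) (d : Fin c → ℕ)
  (D : DSys Ω n c d) (x : Fin (n + 1) → Ω) (j0 : Fin (n + 1)), n = c + 3 → ∑ m, d m = n + 2 →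
  (∀ m, 2 ≤ d m) → 2 ≤ c → Sit S D x j0 →
  ∀ A : TP Ω n c, Tk k d A → Module.finrank Ω (EA D x j0 k A) ≤ 3

/-! ### the singular case -/

/-- Row LINE: no line of small variation. -/
def LineStatement : Prop := ∀ (Ω : Type) [Field Ω] [CharZero Ω] (k : Subfield Ω)
  (Γ : Type) [LinearOrderedCommGroupWithZero Γ] (S : Sizes Ω k Γ) (n c : ℕ) (d : Fin c → ℕ)
  (D : DSys Ω n c d) (x : Fin (n + 1) → Ω) (j0 : Fin (n + 1)), n = c + 3 → ∑ m, d m = n + 2 →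
  (∀ m, 2 ≤ d m) → 2 ≤ c → Sit S D x j0 → ∀ y κ : Fin (n + 1) → Ω, LinearIndependent Ω ![x, y] →
  (∀ u, Bc D x k u → u ∈ Submodule.span Ω {x, κ}) →
  ¬ ∀ G : TP Ω n c, Lines.Hom d G → Lines.OnLine x y G → VT D x G ∈ Submodule.span Ω {x, κ}

/-- Row RK1: the bounded columns and `x` span a plane, all ranks at most 1. -/
def Rk1Statement : Prop := KerStatement → ∀ (Ω : Type) [Field Ω] [CharZero Ω] (k : Subfield Ω)
  (n c : ℕ) (d : Fin c → ℕ) (D : DSys Ω n c d) (x : Fin (n + 1) → Ω) (j0 : Fin (n + 1)),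
  n = c + 3 → (∀ m, 1 ≤ d m) → x j0 = 1 → (∀ m, eval x (D.F m) = 0) →
  Module.finrank Ω (Tb D x k) = 2 →
  (∀ A : TP Ω n c, Tk k d A → Module.finrank Ω (EA D x j0 k A) ≤ 3) →
  ∃ y, LinearIndependent Ω ![x, y] ∧
    ∀ G : TP Ω n c, Lines.Hom d G → Lines.OnLine x y G → VT D x G ∈ Tb D x k

/-- Row ATK: all bounded columns are multiples of `x`, all ranks at most 2: a line or a plane. -/
def AtkStatement : Prop := KerStatement → ∀ (Ω : Type) [Field Ω] [CharZero Ω] (k : Subfield Ω)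
  (n c : ℕ) (d : Fin c → ℕ) (D : DSys Ω n c d) (x : Fin (n + 1) → Ω) (j0 : Fin (n + 1)),
  n = c + 3 → (∀ m, 2 ≤ d m) → x j0 = 1 → (∀ m, eval x (D.F m) = 0) →
  (∀ u, Bc D x k u → u ∈ Submodule.span Ω {x}) →
  (∀ A : TP Ω n c, Tk k d A → Module.finrank Ω (EA D x j0 k A) ≤ 3) →
  (∃ y κ : Fin (n + 1) → Ω, LinearIndependent Ω ![x, y] ∧
    ∀ G : TP Ω n c, Lines.Hom d G → Lines.OnLine x y G → VT D x G ∈ Submodule.span Ω {x, κ}) ∨
  ∃ (t : Fin (2 + 1) → Fin (n + 1)) (P : Fin (2 + 1) → Fin (n + 1) → Ω), Cht x j0 t P ∧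
    ∀ A : TP Ω n c, Adm d A → ∀ f, VT D x (mulT A (lam t P f)) = 0

/-- Row BETA: the plane is integrable. -/
def BetaStatement : Prop := LocStatement → HullStatement → NoplStatement →
  ∀ (Ω : Type) [Field Ω] [CharZero Ω] (k : Subfield Ω)
  (Γ : Type) [LinearOrderedCommGroupWithZero Γ] (S : Sizes Ω k Γ) (n c : ℕ) (d : Fin c → ℕ)
  (D : DSys Ω n c d) (x : Fin (n + 1) → Ω) (j0 : Fin (n + 1)), n = c + 3 → ∑ m, d m = n + 2 →
  (∀ m, 2 ≤ d m) → 2 ≤ c → Sit S D x j0 →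
  (∀ u, Bc D x k u → u ∈ Submodule.span Ω {x}) →
  (∀ y κ : Fin (n + 1) → Ω, LinearIndependent Ω ![x, y] →
    ∃ G : TP Ω n c, Lines.Hom d G ∧ Lines.OnLine x y G ∧ VT D x G ∉ Submodule.span Ω {x, κ}) →
  ∀ (t : Fin (2 + 1) → Fin (n + 1)) (P : Fin (2 + 1) → Fin (n + 1) → Ω), Cht x j0 t P →
  (∀ A : TP Ω n c, Adm d A → ∀ f, VT D x (mulT A (lam t P f)) = 0) →
  ∀ A : TP Ω n c, Adm d A → ∀ f i, VT D (P i) (mulT A (lam t P f)) = 0

end Pool.Agent.T2C
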