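import Pool.Agent.Lib.MP_c7af3c_ag.T2.Base

/-!
# MP_c7af3c_ag, project T2C: threefolds with `K = O(1)` and `c ≥ 2` equations, definitions
`n = c + 3`, `∑ d = n + 2`, all `d m ≥ 2`. A block: `r` columns `V(A l)`, `l` a linear form
vanishing at `x`, `A` a tuple over `k`. `Fk`, `Rac`, `lnf`, `Sizes`, `Sit` are those of T2.
-/

set_option autoImplicit false

namespace Pool.Agent.T2C

open MvPolynomial Pool.Agent.Gen Pool.Agent.Sharp Pool.Agent.Edge
open Pool.Agent.T2 (Fk Rac lnf Sizes Sit)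

section

variable {Ω : Type} [Field Ω] {n c : ℕ} {d : Fin c → ℕ}

/-- tuples of forms of degrees `d m - 1` with coefficients in `k` -/
def Tk (k : Subfield Ω) (d : Fin c → ℕ) (A : TP Ω n c) : Prop :=
  Adm d A ∧ ∀ m I, coeff I (A m) ∈ k

variable (D : DSys Ω n c d) (x : Fin (n + 1) → Ω) (j0 : Fin (n + 1))

/-- bounded columns: `W(p,q)` or `V(G)`, `G` over `k` and zero at `x` -/
def Bc (k : Subfield Ω) (u : Fin (n + 1) → Ω) : Prop :=
  (∃ p q, u = WT D x p q) ∨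
    ∃ G : TP Ω n c, (∀ m, Fk k (d m) (G m)) ∧ (∀ m, eval x (G m) = 0) ∧ u = VT D x G

/-- the span of `x` and all bounded columns -/
noncomputable def Tb (k : Subfield Ω) : Submodule Ω (Fin (n + 1) → Ω) :=
  Submodule.span Ω ({x} ∪ {u | Bc D x k u})

/-- the span of `x`, the bounded columns and the `V(A l)`, `l` a linear form vanishing at `x` -/
noncomputable def EA (k : Subfield Ω) (A : TP Ω n c) : Submodule Ω (Fin (n + 1) → Ω) :=
  Submodule.span Ω ({x} ∪ {u | Bc D x k u} ∪ {u | ∃ i, u = VT D x (mulT A (lf x j0 i))})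

/-- the kernel of `F'(x)` -/
noncomputable def KerF : Submodule Ω (Fin (n + 1) → Ω) where
  carrier := {v | ∀ m, ∑ p, eval x (pderiv p (D.F m)) * v p = 0}
  add_mem' := by
    intro u v hu hv m
    have h : ∑ p, eval x (pderiv p (D.F m)) * (u + v) p =
        ∑ p, eval x (pderiv p (D.F m)) * u p + ∑ p, eval x (pderiv p (D.F m)) * v p := by
      rw [← Finset.sum_add_distrib]
      exact Finset.sum_congr rfl fun p _ => by rw [Pi.add_apply, mul_add]
    rw [h, hu m, hv m, add_zero]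
  zero_mem' := fun m => by simp
  smul_mem' := by
    intro a v hv m
    have h : ∑ p, eval x (pderiv p (D.F m)) * (a • v) p =
        a * ∑ p, eval x (pderiv p (D.F m)) * v p := by
      rw [Finset.mul_sum]
      exact Finset.sum_congr rfl fun p _ => by rw [Pi.smul_apply, smul_eq_mul]; ring
    rw [h, hv m, mul_zero]

/-- the span of `x` and the columns `η` -/
def Hs {s : ℕ} (η : Fin s → Fin (n + 1) → Ω) : Submodule Ω (Fin (n + 1) → Ω) :=
  Submodule.span Ω (insert x (Set.range η))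

/-- the determinant of `x`, `s` columns `η`, `r` columns `w` and the columns
`V_m(X_j0^(d m))` -/
noncomputable def dt {s r : ℕ} (ε : (Unit ⊕ (Fin s ⊕ Fin r)) ⊕ Fin c ≃ Fin (n + 1))
    (η : Fin s → Fin (n + 1) → Ω) (w : Fin r → Fin (n + 1) → Ω) : Ω :=
  Matrix.det (Matrix.of fun a k =>
    colU D x (Sum.elim (fun _ : Unit => x) (Sum.elim η w)) j0 k (ε a))

/-- the contracted determinant of one block: the coordinate `i` of an `(r+1)`-vector divisible
by `x` -/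
noncomputable def tauB {s r : ℕ} (ε : (Unit ⊕ (Fin s ⊕ Fin r)) ⊕ Fin c ≃ Fin (n + 1))
    (η : Fin s → Fin (n + 1) → Ω) (A : TP Ω n c) (i : Fin (r + 1) → Fin (n + 1)) : Ω :=
  ∑ a : Fin (r + 1), (-1) ^ (a : ℕ) * x (i a) *
    dt D x j0 ε η fun b => VT D x (mulT A (lf x j0 (i (a.succAbove b))))

end

section

variable {Ω : Type} [Field Ω] {n c : ℕ} {d : Fin c → ℕ}

/-- the form `X_f - ∑ i, P_i(f) X_(t i)` -/
noncomputable def lam {m : ℕ} (t : Fin m → Fin (n + 1)) (P : Fin m → Fin (n + 1) → Ω)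
    (f : Fin (n + 1)) : MvPolynomial (Fin (n + 1)) Ω :=
  X f - ∑ i, C (P i f) * X (t i)

/-- a linear space through `x` in the chart `t` -/
structure Cht (x : Fin (n + 1) → Ω) (j0 : Fin (n + 1)) {m : ℕ} (t : Fin (m + 1) → Fin (n + 1))
    (P : Fin (m + 1) → Fin (n + 1) → Ω) : Prop where
  t0 : t 0 = j0
  Pt : ∀ i j, P i (t j) = if i = j then 1 else 0
  xP : ∀ f, x f = ∑ i, P i f * x (t i)

/-- the hull of `x` over `k` in the chart `t` -/
structure Hull (k : Subfield Ω) (x : Fin (n + 1) → Ω) (j0 : Fin (n + 1)) {m : ℕ}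
    (t : Fin (m + 1) → Fin (n + 1)) (P : Fin (m + 1) → Fin (n + 1) → Ω) : Prop
    extends Cht x j0 t P where
  Pk : ∀ i f, P i f ∈ k
  yk : ∀ a : Fin (m + 1) → Ω, (∀ i, a i ∈ k) → ∑ i, a i * x (t i) = 0 → a = 0

/-- The regular situation: `r = 3`, or `r = 2` and one more column `η`. -/
structure GeoA (k : Subfield Ω) (D : DSys Ω n c d) (x : Fin (n + 1) → Ω) (j0 : Fin (n + 1))
    {s r : ℕ} (η : Fin s → Fin (n + 1) → Ω) (t : Fin (r + 1) → Fin (n + 1))
    (P : Fin (r + 1) → Fin (n + 1) → Ω) (A0 : TP Ω n c) : Prop where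
  hj0 : x j0 = 1
  h0 : ∀ m, eval x (D.F m) = 0
  kF : ∀ m I, coeff I (D.F m) ∈ k
  kalg : Rac k
  sr : s + r = 3
  r2 : 2 ≤ r
  hull : Hull k x j0 t P
  gη : ∀ i, η i ∈ KerF D x
  w : ∀ p q, WT D x p q ∈ Hs x η
  van : ∀ A : TP Ω n c, Adm d A → ∀ f, VT D x (mulT A (lam t P f)) ∈ Hs x η
  A0k : Tk k d A0
  bas : LinearIndependent Ω (Sum.elim (fun _ : Unit => x)
    (Sum.elim η fun b : Fin r => VT D x (mulT A0 (lf x j0 (t b.succ)))))
  word : ∀ a : TP Ω n c → Matrix (Fin r) (Fin r) Ω,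
    (∀ A : TP Ω n c, Adm d A → ∀ j : Fin r,
      VT D x (mulT A (lf x j0 (t j.succ))) -
        ∑ i : Fin r, a A i j • VT D x (mulT A0 (lf x j0 (t i.succ))) ∈ Hs x η) →
    ∀ l : List (TP Ω n c), (∀ A ∈ l, Tk k d A) → Matrix.trace ((l.map a).prod) ∈ k

/-- the property used in `AnnA` and `AnnJ`: the multiples `w H e_m0`, `H(x) = 0`, do not move `x`
modulo `η` -/
def AnnH (D : DSys Ω n c d) (x : Fin (n + 1) → Ω) {s : ℕ} (η : Fin s → Fin (n + 1) → Ω)
    (m0 : Fin c) (w : MvPolynomial (Fin (n + 1)) Ω) : Prop :=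
  ∀ H : MvPolynomial (Fin (n + 1)) Ω, H.IsHomogeneous (d m0 - 2) → eval x H = 0 →
    VT D x (Pi.single m0 (w * H)) ∈ Hs x η

/-- quadrics over `k` whose multiples in the component `m0` do not move the point vanish at it -/
def AnnA (k : Subfield Ω) (D : DSys Ω n c d) (x : Fin (n + 1) → Ω) {s : ℕ}
    (η : Fin s → Fin (n + 1) → Ω) (m0 : Fin c) : Prop :=
  ∀ w : MvPolynomial (Fin (n + 1)) Ω, Fk k 2 w → AnnH D x η m0 w → eval x w = 0

/-- for such quadrics the trivector `x ∧ η ∧ V(w X_j0^(d - 2) e_m0)` is over `k` -/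
def AnnJ (k : Subfield Ω) (D : DSys Ω n c d) (x : Fin (n + 1) → Ω) (j0 : Fin (n + 1))
    (η : Fin 1 → Fin (n + 1) → Ω) (m0 : Fin c) : Prop :=
  ∀ w : MvPolynomial (Fin (n + 1)) Ω, Fk k 2 w → AnnH D x η m0 w →
    ∀ i : Fin 3 → Fin (n + 1), Matrix.det (Matrix.of fun a b =>
      (![x, η 0, VT D x (Pi.single m0 (w * X j0 ^ (d m0 - 2)))] : Fin 3 → Fin (n + 1) → Ω)
        a (i b)) ∈ k

end

section

variable {Ω : Type} [Field Ω] {c : ℕ}

/-- The algebraic core of the regular situation: `a A` is the matrix of `φ_(A0)^(-1) φ_A` in the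
basis `X_i - y_i X_0` of the linear forms which vanish at `y`. -/
structure CoreA (k : Subfield Ω) (d : Fin c → ℕ) {r : ℕ} (y : Fin (r + 1) → Ω)
    (a : TP Ω r c →ₗ[Ω] Matrix (Fin r) (Fin r) Ω) : Prop where
  y0 : y 0 = 1
  yk : ∀ b : Fin (r + 1) → Ω, (∀ i, b i ∈ k) → ∑ i, b i * y i = 0 → b = 0
  one : ∃ A0 : TP Ω r c, (∀ m, Fk k (d m - 1) (A0 m)) ∧ a A0 = 1
  comm : ∀ C' : TP Ω r c, (∀ m, (C' m).IsHomogeneous (d m - 2)) → ∀ i j m : Fin r,
    a (fun p => (X i.succ - C (y i.succ) * X 0) * C' p) m j =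
      a (fun p => (X j.succ - C (y j.succ) * X 0) * C' p) m i
  word : ∀ l : List (TP Ω r c), (∀ A ∈ l, ∀ m, Fk k (d m - 1) (A m)) →
    Matrix.trace ((l.map a).prod) ∈ k
  eqv : ∀ b : Fin (r + 1) → Ω, (∀ i, b i ∈ k) → b ≠ 0 → ∀ τ : Fin r → Ω,
    (∀ C' : TP Ω r c, (∀ m, (C' m).IsHomogeneous (d m - 2)) → ∀ j,
      ∑ m, τ m * a (fun p => lnf b * C' p) m j = 0) → τ = 0

/-- the restriction of `AnnA` to the hull -/
def AnnC (k : Subfield Ω) (d : Fin c → ℕ) {r : ℕ} (y : Fin (r + 1) → Ω)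
    (a : TP Ω r c →ₗ[Ω] Matrix (Fin r) (Fin r) Ω) (m0 : Fin c) : Prop :=
  ∀ w : MvPolynomial (Fin (r + 1)) Ω, Fk k 2 w →
    (∀ C' : MvPolynomial (Fin (r + 1)) Ω, C'.IsHomogeneous (d m0 - 3) →
      a (Pi.single m0 (w * C')) = 0) → eval y w = 0

/-- the minor of `ι l` and `ι l'` in the rows `e`, `e'` -/
noncomputable def mnr {r N : ℕ} (ι : Fin N → Fin r → Fin (r + 1) → Ω) (l l' : Fin N)
    (e e' : Fin r) : MvPolynomial (Fin (r + 1)) Ω :=
  lnf (ι l e) * lnf (ι l' e') - lnf (ι l e') * lnf (ι l' e)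

/-- The output of ENDA: `∑ u_l ι_l` has rank `r` and kills `y`, the `u_l` are independent over `k`,
all minors of the `ι_l` are in the kernel of `a`. -/
def PenK (k : Subfield Ω) (d : Fin c → ℕ) {r : ℕ} (y : Fin (r + 1) → Ω)
    (a : TP Ω r c →ₗ[Ω] Matrix (Fin r) (Fin r) Ω) : Prop :=
  ∃ (N : ℕ) (ι : Fin N → Fin r → Fin (r + 1) → Ω) (u : Fin N → Ω),
    (∀ l e j, ι l e j ∈ k) ∧ (∀ e, ∑ j, (∑ l, u l * ι l e j) * y j = 0) ∧
    (LinearIndependent Ω fun e j => ∑ l, u l * ι l e j) ∧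
    (∀ b : Fin N → Ω, (∀ l, b l ∈ k) → ∑ l, b l * u l = 0 → b = 0) ∧
    ∀ l l' e e' m, 3 ≤ d m → ∀ C' : MvPolynomial (Fin (r + 1)) Ω, C'.IsHomogeneous (d m - 3) →
      a (Pi.single m (mnr ι l l' e e' * C')) = 0

end

end Pool.Agent.T2C
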