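import Pool.Agent.Lib.MP_c7af3c_ag.T2C.IfaceA

/-!
# MP_c7af3c_ag, project T2C, row BETA: the sub-rows
See T2C/PaperBeta.md. Situation of `BetaStatement`. `Kro`: the degenerate situation (`dim W = 2`,
`T = S^2 M`): `T i j` is the value of `V` on `nf_i nf_j`, up to the factor `ω m` in the
component `m`.
-/

set_option autoImplicit false

namespace Pool.Agent.T2C

open MvPolynomial Pool.Agent.Gen Pool.Agent.Sharp Pool.Agent.Edge
open Pool.Agent.T2 (Fk Rac lnf Sizes Sit)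

section

variable {Ω : Type} [Field Ω] {n c : ℕ} {d : Fin c → ℕ}

/-- the linear forms `X_(t (i+1)) - x_(t (i+1)) X_j0` -/
noncomputable def nf (x : Fin (n + 1) → Ω) (j0 : Fin (n + 1)) (t : Fin (2 + 1) → Fin (n + 1))
    (i : Fin 2) : MvPolynomial (Fin (n + 1)) Ω := lf x j0 (t i.succ)

/-- The degenerate situation. -/
structure Kro (D : DSys Ω n c d) (x : Fin (n + 1) → Ω) (j0 : Fin (n + 1))
    (t : Fin (2 + 1) → Fin (n + 1)) (m1 : Fin c) (ω : Fin c → Ω) (τ : Fin c → Fin 2 → Ω)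
    (T : Fin 2 → Fin 2 → Fin (n + 1) → Ω) : Prop where
  d1 : d m1 = 2
  ω1 : ω m1 = 1
  ω0 : ∀ m, 3 ≤ d m → ω m = 0
  sym : T 1 0 = T 0 1
  li : LinearIndependent Ω ![T 0 0, T 0 1, T 1 1]
  two : ∀ m (B : MvPolynomial (Fin (n + 1)) Ω), B.IsHomogeneous (d m - 2) → ∀ i j,
    VT D x (Pi.single m (B * nf x j0 t j * nf x j0 t i)) = (eval x B * ω m) • T i j
  one : ∀ m i, VT D x (Pi.single m (X j0 ^ (d m - 1) * nf x j0 t i)) =
    τ m 0 • T 0 i + τ m 1 • T 1 i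

/-- the hypotheses of row BETA -/
structure BetH (D : DSys Ω n c d) (x : Fin (n + 1) → Ω) (j0 : Fin (n + 1))
    (t : Fin (2 + 1) → Fin (n + 1)) (P : Fin (2 + 1) → Fin (n + 1) → Ω) : Prop where
  hn : n = c + 3
  hd : ∑ m, d m = n + 2
  d2 : ∀ m, 2 ≤ d m
  c2 : 2 ≤ c
  hj0 : x j0 = 1
  h0 : ∀ m, eval x (D.F m) = 0
  comm : Lines.Comm D
  w0 : ∀ p q, WT D x p q ∈ Submodule.span Ω {x}
  wF : ∀ m m', d m' ≤ d m →
    VT D x (Pi.single m (X j0 ^ (d m - d m') * D.F m')) ∈ Submodule.span Ω {x}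
  line : ∀ y κ : Fin (n + 1) → Ω, LinearIndependent Ω ![x, y] →
    ∃ G : TP Ω n c, Lines.Hom d G ∧ Lines.OnLine x y G ∧ VT D x G ∉ Submodule.span Ω {x, κ}
  ch : Cht x j0 t P
  van : ∀ A : TP Ω n c, Adm d A → ∀ f, VT D x (mulT A (lam t P f)) = 0

end

/-- Sub-row ALG (helper53): the linear algebra. `v i A = V(A nf_i)`. -/
def AlgStatement : Prop := ∀ (K : Type) [Field K] (S U ι : Type) [AddCommGroup S] [Module K S]
  [AddCommGroup U] [Module K U] (v : Fin 2 → S →ₗ[K] U)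
  (b : ι → Fin 2 → ι → (S →ₗ[K] K)),
  (∀ f f' A A', b f 0 f' A' • v 0 A + b f 1 f' A' • v 1 A =
    b f' 0 f A • v 0 A' + b f' 1 f A • v 1 A') →
  (∀ a : Fin 2 → K, a ≠ 0 → ∀ u : U, ∃ A, a 0 • v 0 A + a 1 • v 1 A ∉ Submodule.span K {u}) →
  (∀ f i f' A, b f i f' A = 0) ∨
    ∃ A₀ A₁ : S, ∀ A, ∃ α β : K, ∀ i, v i A = α • v i A₀ + β • v i A₁

/-- Sub-row KRO (helper6): the plane is integrable or we are in the degenerate situation. -/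
def KroStatement : Prop := AlgStatement → LocStatement →
  ∀ (Ω : Type) [Field Ω] [CharZero Ω] (k : Subfield Ω)
  (Γ : Type) [LinearOrderedCommGroupWithZero Γ] (S : Sizes Ω k Γ) (n c : ℕ) (d : Fin c → ℕ)
  (D : DSys Ω n c d) (x : Fin (n + 1) → Ω) (j0 : Fin (n + 1))
  (t : Fin (2 + 1) → Fin (n + 1)) (P : Fin (2 + 1) → Fin (n + 1) → Ω), Sit S D x j0 →
  BetH D x j0 t P →
  (∀ A : TP Ω n c, Adm d A → ∀ f i, VT D (P i) (mulT A (lam t P f)) = 0) ∨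
    ∃ (m1 : Fin c) (ω : Fin c → Ω) (τ : Fin c → Fin 2 → Ω)
      (T : Fin 2 → Fin 2 → Fin (n + 1) → Ω), Kro D x j0 t m1 ω τ T

/-- Sub-row QUA (helper53): in the degenerate situation all quadrics vanish on the plane, and
`sum_m ω_m F_m` is a quadratic form with `q(Ker F'(x), Π) = 0`. -/
def QuaStatement : Prop := ∀ (Ω : Type) [Field Ω] [CharZero Ω] (n c : ℕ) (d : Fin c → ℕ)
  (D : DSys Ω n c d) (x : Fin (n + 1) → Ω) (j0 : Fin (n + 1))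
  (t : Fin (2 + 1) → Fin (n + 1)) (P : Fin (2 + 1) → Fin (n + 1) → Ω),
  BetH D x j0 t P → ∀ (m1 : Fin c) (ω : Fin c → Ω) (τ : Fin c → Fin 2 → Ω)
      (T : Fin 2 → Fin 2 → Fin (n + 1) → Ω), Kro D x j0 t m1 ω τ T →
  (∀ m, d m = 2 → ∀ i j, ∑ p, eval (P i) (pderiv p (D.F m)) * P j p = 0) ∧
  ∀ v ∈ KerF D x, ∀ i, ∑ m, ω m * ∑ p, eval (P i) (pderiv p (D.F m)) * v p = 0

/-- Sub-row FIN2 (helper2): at least two quadrics, all quadrics vanish on the plane: the plane is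
integrable. -/
def Fin2Statement : Prop := ∀ (Ω : Type) [Field Ω] [CharZero Ω] (n c : ℕ) (d : Fin c → ℕ)
  (D : DSys Ω n c d) (t : Fin (2 + 1) → Fin (n + 1)) (P : Fin (2 + 1) → Fin (n + 1) → Ω),
  n = c + 3 → ∑ m, d m = n + 2 → (∀ m, 2 ≤ d m) →
  (∀ i j, P i (t j) = if i = j then 1 else 0) →
  (∀ m, d m = 2 → ∀ i j, ∑ p, eval (P i) (pderiv p (D.F m)) * P j p = 0) →
  ∀ m1 m2 : Fin c, m1 ≠ m2 → d m1 = 2 → d m2 = 2 →
  ∀ A : TP Ω n c, Adm d A → ∀ f i, VT D (P i) (mulT A (lam t P f)) = 0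

/-- Sub-row FIN1 (helper53): exactly one quadric: impossible. -/
def Fin1Statement : Prop := ∀ (Ω : Type) [Field Ω] [CharZero Ω] (k : Subfield Ω) (n c : ℕ)
  (d : Fin c → ℕ) (D : DSys Ω n c d) (x : Fin (n + 1) → Ω) (j0 : Fin (n + 1))
  (t : Fin (2 + 1) → Fin (n + 1)) (P : Fin (2 + 1) → Fin (n + 1) → Ω),
  BetH D x j0 t P → (∀ m I, coeff I (D.F m) ∈ k) → Rac k → (∃ i, x i ∉ k) →
  ∀ m1 : Fin c, d m1 = 2 → (∀ m, m ≠ m1 → 3 ≤ d m) →
  (∀ i j, ∑ p, eval (P i) (pderiv p (D.F m1)) * P j p = 0) →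
  (∀ v ∈ KerF D x, ∀ i, ∑ p, eval (P i) (pderiv p (D.F m1)) * v p = 0) → False

end Pool.Agent.T2C
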