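import Pool.Agent.Lib.MP_c7af3c_ag.T2C.Plane
import Pool.Agent.Lib.MP_c7af3c_ag.T2.IfaceB

/-!
# MP_c7af3c_ag, project T2C: the plane type for tuples, module statements
See finding 4191 and PaperB.md; the definitions are in Plane.lean.
Each owner proves `theorem xyz : XyzStatement` in T2C/Hnn/Xyz.lean (namespace
Pool.Agent.T2C.Hnn).
-/

set_option autoImplicit false

namespace Pool.Agent.T2C

open MvPolynomial Pool.Agent.Gen Pool.Agent.Sharp Pool.Agent.Edge
open Pool.Agent.T2 (S3 mulS Sizes Sit CloseStatement QclStatement)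
open Pool.Agent.T2C.H8 (Fix T3 HomC lift rs RC sm mulC dT PlC)
open Pool.Agent.Sharp.H75 (dco DG af)
open Pool.Agent.Edge.H65 (ssub)

/-! ### the conic -/

/-- Row BU: blow-ups. -/
def BuStatement : Prop := ∀ (Ω : Type) [Field Ω] [CharZero Ω] (ι U Q : Type) [Fintype ι]
  [AddCommGroup U] [Module Ω U] [FiniteDimensional Ω U] [AddCommGroup Q] [Module Ω Q]
  [FiniteDimensional Ω Q] (b : ι → U →ₗ[Ω] Q), Module.finrank Ω U = Module.finrank Ω Q →
  (∀ U' : Submodule Ω U, Module.finrank Ω U' ≤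
    Module.finrank Ω (⨆ i, U'.map (b i) : Submodule Ω Q)) →
  ∃ (N : ℕ) (T : ι → Fin N → Fin N → ℤ), 0 < N ∧
    Function.Bijective fun (u : Fin N → U) (p : Fin N) => ∑ i, ∑ q, (T i p q : Ω) • b i (u q)

/-- the span of the products of the elements of `V` and the tuples of forms of degrees `r m` -/
noncomputable def SP {K : Type} [Field K] {c : ℕ} (V : Submodule K (MvPolynomial (Fin 3) K))
    (r : Fin c → ℕ) : Submodule K (T3 K c) :=
  Submodule.span K {g | ∃ a ∈ V, ∃ b ∈ ST K r, g = fun m => a * b m}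

/-- Hall's condition for the block `M_2 + M_1^c` modulo `R` -/
def Hall {K : Type} [Field K] {c : ℕ} (d : Fin c → ℕ) (y : Fin 3 → K)
    (R : Submodule K (T3 K c)) : Prop :=
  ∀ Q' L' : Submodule K (MvPolynomial (Fin 3) K),
    (∀ q ∈ Q', q.IsHomogeneous 2 ∧ eval y q = 0) → (∀ l ∈ L', l.IsHomogeneous 1 ∧ eval y l = 0) →
    Module.finrank K Q' + c * Module.finrank K L' + Module.finrank K R ≤
      Module.finrank K (R ⊔ (SP Q' (fun m => d m - 2) ⊔ SP L' (fun m => d m - 1)) :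
        Submodule K (T3 K c))

/-- Row HALL (lemma H). -/
def HallStatement : Prop := ∀ (K : Type) [Field K] [CharZero K] (n c : ℕ) (d : Fin c → ℕ)
  (y : Fin 3 → K) (R : Submodule K (T3 K c)), Ty n c d → c ≤ 3 → RT d y R →
  (∀ q : MvPolynomial (Fin 3) K, q.IsHomogeneous 2 → q ≠ 0 → ¬ mulC q (fun m => d m - 2) ≤ R) →
  Hall d y R

/-- Row DET: one determinant. -/
def DetStatement : Prop := BuStatement → ∀ (Ω : Type) [Field Ω] [CharZero Ω] (k : Subfield Ω)
  (Γ : Type) [LinearOrderedCommGroupWithZero Γ] (S : Sizes Ω k Γ) (n c : ℕ) (d : Fin c → ℕ)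
  (D : DSys Ω n c d) (x : Fin (n + 1) → Ω) (t : Fin 3 → Fin (n + 1))
  (P : Fin 3 → Fin (n + 1) → Ω), Ty n c d → Sit S D x (t 0) → Pl D x t P →
  RT d (fun i => x (t i)) (RC D x t P) → Hall d (fun i => x (t i)) (RC D x t P) →
  ∀ i f, P i f ∈ k

/-! ### algebraic closure -/

/-- the additional hypothesis on the conic in the case `c = 4` -/
def Qok {K : Type} [Field K] {n c : ℕ} {d : Fin c → ℕ} (D : DSys K n c d)
    (P : Fin 3 → Fin (n + 1) → K) (q : MvPolynomial (Fin 3) K) : Prop :=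
  c ≤ 3 ∨ c = 4 ∧ ∃ m, d m = 2 ∧ q = fP D P m

/-- Row LIFT: passage to the algebraic closure. -/
def LiftStatement : Prop := CloseStatement → ∀ (Ω : Type) [Field Ω] [CharZero Ω]
  (k : Subfield Ω) (n c : ℕ) (d : Fin c → ℕ) (D : DSys Ω n c d) (x : Fin (n + 1) → Ω)
  (t : Fin 3 → Fin (n + 1)) (P : Fin 3 → Fin (n + 1) → Ω), Ty n c d → PlA k D x t P →
  ∀ q : MvPolynomial (Fin 3) Ω, q.IsHomogeneous 2 → q ≠ 0 →
  mulC q (fun m => d m - 2) ≤ RC D x t P → Qok D P q →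
  ∃ (K : Type) (_ : Field K) (_ : CharZero K) (_ : IsAlgClosed K) (k' : Subfield K)
    (D' : DSys K n c d) (x' : Fin (n + 1) → K) (P' : Fin 3 → Fin (n + 1) → K)
    (q' : MvPolynomial (Fin 3) K), PlA k' D' x' t P' ∧ q'.IsHomogeneous 2 ∧ q' ≠ 0 ∧
    mulC q' (fun m => d m - 2) ≤ RC D' x' t P' ∧ Qok D' P' q'

/-! ### pure algebra -/

/-- Row UNIQ: the conic is unique. -/
def UniqStatement : Prop := ∀ (K : Type) [Field K] [CharZero K] (n c : ℕ) (d : Fin c → ℕ)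
  (y : Fin 3 → K) (R : Submodule K (T3 K c)), Ty n c d → c ≤ 4 → RT d y R →
  ∀ q q' : MvPolynomial (Fin 3) K, q.IsHomogeneous 2 → q'.IsHomogeneous 2 → q ≠ 0 →
  mulC q (fun m => d m - 2) ≤ R → mulC q' (fun m => d m - 2) ≤ R → ∃ e, q' = C e * q

/-- Row QINTB: the product lemma. -/
def QintbStatement : Prop := UniqStatement → ∀ (K : Type) [Field K] [CharZero K] [IsAlgClosed K]
  (n c : ℕ) (d : Fin c → ℕ) (y : Fin 3 → K) (R : Submodule K (T3 K c)), Ty n c d → 1 ≤ c →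
  c ≤ 3 → RT d y R → ∀ q : MvPolynomial (Fin 3) K, q.IsHomogeneous 2 → q ≠ 0 →
  mulC q (fun m => d m - 2) ≤ R → ∀ β : T3 K c →ₗ[K] MvPolynomial (Fin 3) K,
  (∀ A ∈ ST K (fun m => d m - 2), (β A).IsHomogeneous 2 ∧ eval y (β A) = 0) →
  (∀ A ∈ ST K (fun m => d m - 2), ∀ A' ∈ ST K (fun m => d m - 2),
    sm (β A) A' - sm (β A') A ∈ R) →
  ∀ A ∈ ST K (fun m => d m - 2), ∃ e, β A = C e * q

/-- normal forms of one form, degree `r + 2`: the configuration -/
structure CfgE {K : Type} [Field K] (r : ℕ) (q f : MvPolynomial (Fin 3) K) (y : Fin 3 → K)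
    (g : Fin 3 → Fin 3 → K) (q0 f0 : MvPolynomial (Fin 3) ℤ) (y0 : Fin 3 → ℤ) (a b : K) :
    Prop where
  gi : LinearIndependent K g
  a0 : a ≠ 0
  hq : ssub g q = C a * MvPolynomial.map (Int.castRingHom K) q0
  hf : ssub g f - MvPolynomial.map (Int.castRingHom K) f0 ∈
    mulS (MvPolynomial.map (Int.castRingHom K) q0) r
  hy : ∀ j, y j = b * ∑ i, (y0 i : K) * g i j

/-- normal forms of one form: the space of matrices -/
structure StbE {K : Type} [Field K] (r : ℕ) (q f : MvPolynomial (Fin 3) K) (y : Fin 3 → K)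
    (M : Submodule K (Fin 3 → Fin 3 → K)) : Prop where
  two : 2 ≤ Module.finrank K M
  fy : ∀ L ∈ M, ∃ c, ∀ j, ∑ i, L j i * y i = c * y j
  fq : ∀ L ∈ M, ∃ c, af L q = C c * q
  ff : ∀ L ∈ M, af L f ∈ mulS q r

/-- Rows NORM1, NORM2, NORM3, NORM4 for every degree `r + 2 ≥ 3`: `q0` is
`X 0 * X 2 - X 1 ^ 2`, `X 0 * X 2`, `X 1 * X 2`, `X 2 ^ 2`. -/
def NormeStatement (q0 : MvPolynomial (Fin 3) ℤ) : Prop := ∀ (K : Type) [Field K] [CharZero K]
  [IsAlgClosed K] (r : ℕ) (f : MvPolynomial (Fin 3) K), 1 ≤ r → f.IsHomogeneous (r + 2) →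
  coeff (Finsupp.single 0 (r + 2)) f = 0 →
  (∀ z : MvPolynomial (Fin 3) K, z.IsHomogeneous 1 → z ≠ 0 →
    z ∣ MvPolynomial.map (Int.castRingHom K) q0 → f ∉ mulS z (r + 1)) →
  ∀ M : Submodule K (Fin 3 → Fin 3 → K),
  StbE r (MvPolynomial.map (Int.castRingHom K) q0) f ![1, 0, 0] M →
  ∃ (g : Fin 3 → Fin 3 → K) (f0 : MvPolynomial (Fin 3) ℤ) (y0 : Fin 3 → ℤ) (a b : K),
    CfgE r (MvPolynomial.map (Int.castRingHom K) q0) f ![1, 0, 0] g q0 f0 y0 a b

/-- Row NORME: normal forms of one form. -/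
def NormOneStatement : Prop := QclStatement → NormeStatement (X 0 * X 2 - X 1 ^ 2) →
  NormeStatement (X 0 * X 2) → NormeStatement (X 1 * X 2) → NormeStatement (X 2 ^ 2) →
  ∀ (K : Type) [Field K] [CharZero K] [IsAlgClosed K] (r : ℕ) (q f : MvPolynomial (Fin 3) K)
  (y : Fin 3 → K), 1 ≤ r → q.IsHomogeneous 2 → q ≠ 0 → f.IsHomogeneous (r + 2) → y ≠ 0 →
  eval y q = 0 → eval y f = 0 →
  (∀ z : MvPolynomial (Fin 3) K, z.IsHomogeneous 1 → z ≠ 0 → z ∣ q → f ∉ mulS z (r + 1)) →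
  ∀ M : Submodule K (Fin 3 → Fin 3 → K), StbE r q f y M →
  ∃ (g : Fin 3 → Fin 3 → K) (q0 f0 : MvPolynomial (Fin 3) ℤ) (y0 : Fin 3 → ℤ) (a b : K),
    CfgE r q f y g q0 f0 y0 a b

/-- the hypotheses of the normal forms for tuples -/
structure Nrm {K : Type} [Field K] {c : ℕ} (d : Fin c → ℕ) (q : MvPolynomial (Fin 3) K)
    (f : T3 K c) (y : Fin 3 → K) : Prop where
  hq : q.IsHomogeneous 2
  q0 : q ≠ 0
  hf : ∀ m, (f m).IsHomogeneous (d m)
  y0 : y ≠ 0
  yq : eval y q = 0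
  yf : ∀ m, eval y (f m) = 0
  noln : ∀ z : MvPolynomial (Fin 3) K, z.IsHomogeneous 1 → z ≠ 0 → f ∉ mulC z (fun m => d m - 1)

/-- the conclusion of the normal forms for tuples -/
def HasCfg {K : Type} [Field K] {c : ℕ} (d : Fin c → ℕ) (q : MvPolynomial (Fin 3) K)
    (f : T3 K c) (y : Fin 3 → K) : Prop :=
  ∃ (g : Fin 3 → Fin 3 → K) (B B' : Fin c → Fin c → MvPolynomial (Fin 3) K)
    (q0 : MvPolynomial (Fin 3) ℤ) (f0 : Fin c → MvPolynomial (Fin 3) ℤ) (y0 : Fin 3 → ℤ)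
    (a b : K), Cfg d q f y g B B' q0 f0 y0 a b

/-- Row NQUAD: the quadrics are multiples of the conic. -/
def NquadStatement : Prop := ∀ (K : Type) [Field K] [CharZero K] [IsAlgClosed K] (n c : ℕ)
  (d : Fin c → ℕ) (q : MvPolynomial (Fin 3) K) (f : T3 K c) (y : Fin 3 → K), Ty n c d → 2 ≤ c →
  c ≤ 4 → Nrm d q f y → ∀ M, Stb d q f y M → ∀ m, d m = 2 → ∃ e, f m = C e * q

/-- Row NSING: all components but one are multiples of the conic. -/
def NsingStatement : Prop := NormOneStatement → QclStatement →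
  NormeStatement (X 0 * X 2 - X 1 ^ 2) → NormeStatement (X 0 * X 2) →
  NormeStatement (X 1 * X 2) → NormeStatement (X 2 ^ 2) → ∀ (K : Type) [Field K] [CharZero K]
  [IsAlgClosed K] (n c : ℕ) (d : Fin c → ℕ) (q : MvPolynomial (Fin 3) K) (f : T3 K c)
  (y : Fin 3 → K), Ty n c d → Nrm d q f y → ∀ M, Stb d q f y M → ∀ m0, 3 ≤ d m0 →
  (∀ m, m ≠ m0 → d m < d m0 ∧ f m ∈ mulS q (d m - 2)) → HasCfg d q f y

/-- Row N34: type (3, 4), the cubic is no multiple of the conic (then the conic is a double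
line). -/
def N34Statement : Prop := QclStatement → ∀ (K : Type) [Field K] [CharZero K] [IsAlgClosed K]
  (d : Fin 2 → ℕ) (q : MvPolynomial (Fin 3) K) (f : T3 K 2) (y : Fin 3 → K), Nrm d q f y →
  ∀ M, Stb d q f y M → ∀ m0 m1, d m0 = 3 → d m1 = 4 → f m0 ∉ mulS q 1 → HasCfg d q f y

/-- Row N233: type (2, 3, 3). -/
def N233Statement : Prop := QclStatement → ∀ (K : Type) [Field K] [CharZero K] [IsAlgClosed K]
  (d : Fin 3 → ℕ) (q : MvPolynomial (Fin 3) K) (f : T3 K 3) (y : Fin 3 → K), Nrm d q f y →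
  ∀ M, Stb d q f y M → ∀ m0 m1 m2, d m0 = 2 → d m1 = 3 → d m2 = 3 → m1 ≠ m2 →
  (∃ e, f m0 = C e * q) → HasCfg d q f y

/-- Row NORM: normal forms for tuples (assembly of NQUAD, NSING, N34, N233). -/
def NormStatement : Prop := QclStatement → NormOneStatement →
  NormeStatement (X 0 * X 2 - X 1 ^ 2) → NormeStatement (X 0 * X 2) →
  NormeStatement (X 1 * X 2) → NormeStatement (X 2 ^ 2) → NquadStatement → NsingStatement →
  N34Statement → N233Statement → ∀ (K : Type) [Field K] [CharZero K] [IsAlgClosed K] (n c : ℕ)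
  (d : Fin c → ℕ) (q : MvPolynomial (Fin 3) K) (f : T3 K c) (y : Fin 3 → K), Ty n c d → 2 ≤ c →
  c ≤ 4 → Nrm d q f y → ∀ M, Stb d q f y M → HasCfg d q f y

/-! ### the geometry -/

/-- Row PCAN: the plane is canonical. -/
def PcanStatement : Prop := ∀ (K : Type) [Field K] [CharZero K] (n c : ℕ) (d : Fin c → ℕ)
  (D : DSys K n c d) (x : Fin (n + 1) → K) (t : Fin 3 → Fin (n + 1))
  (P : Fin 3 → Fin (n + 1) → K), Ty n c d → Pl D x t P →
  (∀ E : Fin (n + 1) → Fin (n + 1) → K,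
    (∀ f, DG D (fun m => af E (D.F m)) (x f) + ∑ q, E f q * x q =
      (∑ q, E (t 0) q * x q) * x f) ∧
    ∀ i f, DG D (fun m => af E (D.F m)) (P i f) + ∑ q, E f q * P i q =
      ∑ j, mat t P E j i * P j f) ∧
  ∀ B ∈ BF K (Fin (n + 1)) d, Fix D x P (bmul B D.F)

/-- Row PHI. -/
def PhiStatement : Prop := PcanStatement → ∀ (K : Type) [Field K] [CharZero K] (n c : ℕ)
  (d : Fin c → ℕ) (D : DSys K n c d) (x : Fin (n + 1) → K) (t : Fin 3 → Fin (n + 1))
  (P : Fin 3 → Fin (n + 1) → K), Ty n c d → Pl D x t P → RT d (fun i => x (t i)) (RC D x t P)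

/-- Row QUAD: a quadric which does not contain the plane gives the conic. -/
def QuadStatement : Prop := PcanStatement → ∀ (K : Type) [Field K] [CharZero K] (n c : ℕ)
  (d : Fin c → ℕ) (D : DSys K n c d) (x : Fin (n + 1) → K) (t : Fin 3 → Fin (n + 1))
  (P : Fin 3 → Fin (n + 1) → K), Ty n c d → Pl D x t P → ∀ m, d m = 2 →
  mulC (fP D P m) (fun m => d m - 2) ≤ RC D x t P

/-- Row QINT: the tuples with restriction in `q S^(d - 2)` do not move the conic. -/
def QintStatement : Prop := UniqStatement → QintbStatement → PcanStatement → ∀ (K : Type)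
  [Field K] [CharZero K] [IsAlgClosed K] (n c : ℕ) (d : Fin c → ℕ) (D : DSys K n c d)
  (x : Fin (n + 1) → K) (t : Fin 3 → Fin (n + 1)) (P : Fin 3 → Fin (n + 1) → K), Ty n c d →
  1 ≤ c → Pl D x t P → RT d (fun i => x (t i)) (RC D x t P) → ∀ q : MvPolynomial (Fin 3) K,
  q.IsHomogeneous 2 → q ≠ 0 → mulC q (fun m => d m - 2) ≤ RC D x t P → Qok D P q →
  ∀ G : Fin c → MvPolynomial (Fin (n + 1)) K, (∀ m, (G m).IsHomogeneous (d m)) →
  rs P G ∈ mulC q (fun m => d m - 2) → ∃ e, dco (DG D G) q = C e * q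

/-- Row QEQ: equivariance of the conic. -/
def QeqStatement : Prop := UniqStatement → PcanStatement → ∀ (K : Type) [Field K] [CharZero K]
  (n c : ℕ) (d : Fin c → ℕ) (D : DSys K n c d) (x : Fin (n + 1) → K)
  (t : Fin 3 → Fin (n + 1)) (P : Fin 3 → Fin (n + 1) → K), Ty n c d → c ≤ 4 → Pl D x t P →
  RT d (fun i => x (t i)) (RC D x t P) → ∀ q : MvPolynomial (Fin 3) K, q.IsHomogeneous 2 →
  q ≠ 0 → mulC q (fun m => d m - 2) ≤ RC D x t P →
  (∀ E : Fin (n + 1) → Fin (n + 1) → K,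
    ∃ e, dco (DG D fun m => af E (D.F m)) q - af (mat t P E) q = C e * q) ∧
  ∀ B ∈ BF K (Fin (n + 1)) d, ∃ e, dco (DG D (bmul B D.F)) q = C e * q

/-- Row STAB. -/
def StabStatement : Prop := UniqStatement → QintbStatement → PcanStatement → QintStatement →
  QeqStatement → ∀ (K : Type) [Field K] [CharZero K] [IsAlgClosed K] (n c : ℕ) (d : Fin c → ℕ)
  (D : DSys K n c d) (x : Fin (n + 1) → K) (t : Fin 3 → Fin (n + 1))
  (P : Fin 3 → Fin (n + 1) → K), Ty n c d → 1 ≤ c → Pl D x t P →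
  RT d (fun i => x (t i)) (RC D x t P) → ∀ q : MvPolynomial (Fin 3) K, q.IsHomogeneous 2 →
  q ≠ 0 → mulC q (fun m => d m - 2) ≤ RC D x t P → Qok D P q →
  (∃ M, Stb d q (fP D P) (fun i => x (t i)) M) ∧
  ∀ a ∈ kk D P q, ∃ e, ∀ f, ∑ i, x (t i) * a.1 i f = e * x f

/-- Row RIGID. -/
def RigidStatement : Prop := ∀ (K : Type) [Field K] [CharZero K] (k : Subfield K) (n c : ℕ)
  (d : Fin c → ℕ) (D : DSys K n c d) (x : Fin (n + 1) → K) (t : Fin 3 → Fin (n + 1))
  (P : Fin 3 → Fin (n + 1) → K), Ty n c d → PlA k D x t P → ∀ q : MvPolynomial (Fin 3) K,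
  q.IsHomogeneous 2 → q ≠ 0 → (∀ a ∈ kk D P q, ∃ e, ∀ f, ∑ i, x (t i) * a.1 i f = e * x f) →
  ¬ HasCfg d q (fP D P) (fun i => x (t i))

/-- Row NOLN: no line in the threefold. -/
def NolnStatement : Prop := ∀ (K : Type) [Field K] [CharZero K] (n c : ℕ) (d : Fin c → ℕ)
  (D : DSys K n c d) (x y : Fin (n + 1) → K), Ty n c d → LinearIndependent K ![x, y] →
  ∃ m, lineP (D.F m) x y ≠ 0

/-- Row Q25: type (2, 5), the plane is contained in the quadric. -/
def Q25Statement : Prop := PhiStatement → PcanStatement → ∀ (Ω : Type) [Field Ω] [CharZero Ω]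
  (k : Subfield Ω) (Γ : Type) [LinearOrderedCommGroupWithZero Γ] (S : Sizes Ω k Γ) (n : ℕ)
  (d : Fin 2 → ℕ) (D : DSys Ω n 2 d) (x : Fin (n + 1) → Ω) (t : Fin 3 → Fin (n + 1))
  (P : Fin 3 → Fin (n + 1) → Ω), Ty n 2 d → Sit S D x (t 0) → Pl D x t P →
  ∀ m0 m1, d m0 = 2 → d m1 = 5 → ssub P (D.F m0) = 0 → False

/-- Row Q2223: type (2, 2, 2, 3), no plane is contained in the three quadrics. -/
def Q2223Statement : Prop := ∀ (K : Type) [Field K] [CharZero K] (n : ℕ) (d : Fin 4 → ℕ)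
  (D : DSys K n 4 d) (P : Fin 3 → Fin (n + 1) → K), Ty n 4 d → LinearIndependent K P →
  ∃ m, d m = 2 ∧ ssub P (D.F m) ≠ 0

/-- Row P25: type (2, 2, 2, 2, 2). -/
def P25Statement : Prop := PcanStatement → PhiStatement → NolnStatement → ∀ (K : Type) [Field K]
  [CharZero K] (n : ℕ) (d : Fin 5 → ℕ) (D : DSys K n 5 d) (x : Fin (n + 1) → K)
  (t : Fin 3 → Fin (n + 1)) (P : Fin 3 → Fin (n + 1) → K), Ty n 5 d → ¬ Pl D x t P

/-- The plane type is impossible. -/
def PlaneTypeStatement : Prop := ∀ (Ω : Type) [Field Ω] [CharZero Ω] (k : Subfield Ω) (Γ : Type)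
  [LinearOrderedCommGroupWithZero Γ] (S : Sizes Ω k Γ) (n c : ℕ) (d : Fin c → ℕ)
  (D : DSys Ω n c d) (x : Fin (n + 1) → Ω) (t : Fin 3 → Fin (n + 1))
  (P : Fin 3 → Fin (n + 1) → Ω), Ty n c d → 2 ≤ c → Sit S D x (t 0) → Pl D x t P →
  ((∀ m, d m = 2 → ssub P (D.F m) = 0) → (∀ m, d m ≠ 5) → ∃ i f, P i f ∉ k) → False

/-- Row ASM. -/
def AsmbStatement : Prop := BuStatement → HallStatement → DetStatement → CloseStatement →
  LiftStatement → UniqStatement → QintbStatement → QclStatement → NormOneStatement →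
  NormeStatement (X 0 * X 2 - X 1 ^ 2) → NormeStatement (X 0 * X 2) →
  NormeStatement (X 1 * X 2) → NormeStatement (X 2 ^ 2) → NquadStatement → NsingStatement →
  N34Statement → N233Statement → NormStatement → PcanStatement → PhiStatement →
  QuadStatement → QintStatement → QeqStatement → StabStatement → RigidStatement →
  NolnStatement → Q25Statement → Q2223Statement → P25Statement → PlaneTypeStatement

end Pool.Agent.T2C
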