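import Pool.Agent.Lib.MP_c7af3c_ag.T2C.H8.PlaneC

/-!
# MP_c7af3c_ag, project T2C: the integrable plane for tuples, definitions
`K` is a field of characteristic 0, `n = c + 3`, `∑ d m = c + 5`, all `d m ≥ 2` (threefolds with
canonical bundle `O(1)`). The structure `Pl` is the seam: it is the output of the rows BETA, LINE
and the input of the plane type (IfaceB.lean, finding 4191). The basic definitions (`Fix`, `T3`,
`HomC`, `lift`, `rs`, `RC`, `sm`, `mulC`, `dT`) are in T2C/H8/PlaneC.lean.
-/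

set_option autoImplicit false

namespace Pool.Agent.T2C

open MvPolynomial Pool.Agent.Gen Pool.Agent.Sharp Pool.Agent.Edge
open Pool.Agent.T2C.H8 (Fix T3 HomC lift rs RC sm mulC dT PlC)
open Pool.Agent.Sharp.H75 (dco DG af)
open Pool.Agent.Edge.H65 (ssub)

/-- the types -/
structure Ty (n c : ℕ) (d : Fin c → ℕ) : Prop where
  hn : n = c + 3
  two : ∀ m, 2 ≤ d m
  sum : ∑ m, d m = c + 5

/-! ### tuples of forms in three variables -/

section tuples

variable (K : Type) [Field K] {c : ℕ}

/-- the tuples of forms of degrees `r m` in three variables -/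
def ST (r : Fin c → ℕ) : Submodule K (T3 K c) where
  carrier := {g | HomC r g}
  zero_mem' := fun _ => isHomogeneous_zero _ _ _
  add_mem' := fun ha hb m => (ha m).add (hb m)
  smul_mem' := fun a g hg m => (homogeneousSubmodule (Fin 3) K (r m)).smul_mem a (hg m)

variable {K}

theorem mem_ST {r : Fin c → ℕ} {g : T3 K c} : g ∈ ST K r ↔ ∀ m, (g m).IsHomogeneous (r m) :=
  Iff.rfl

/-- the products `(B f) m = ∑ m', B m m' * f m'` -/
noncomputable def bmul {σ : Type} (B : Fin c → Fin c → MvPolynomial σ K)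
    (f : Fin c → MvPolynomial σ K) : Fin c → MvPolynomial σ K :=
  fun m => ∑ m', B m m' * f m'

/-- the matrices `B` with `B m m'` of degree `d m - d m'` -/
def BF (K : Type) [Field K] (σ : Type) {c : ℕ} (d : Fin c → ℕ) :
    Submodule K (Fin c → Fin c → MvPolynomial σ K) where
  carrier := {B | ∀ m m', (d m' ≤ d m → (B m m').IsHomogeneous (d m - d m')) ∧
    (d m < d m' → B m m' = 0)}
  zero_mem' := fun m m' => ⟨fun _ => isHomogeneous_zero _ _ _, fun _ => rfl⟩
  add_mem' := fun ha hb m m' => ⟨fun h => ((ha m m').1 h).add ((hb m m').1 h), fun h => by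
    rw [Pi.add_apply, Pi.add_apply, (ha m m').2 h, (hb m m').2 h, add_zero]⟩
  smul_mem' := fun a B hB m m' => ⟨fun h =>
    (homogeneousSubmodule σ K (d m - d m')).smul_mem a ((hB m m').1 h), fun h => by
    rw [Pi.smul_apply, Pi.smul_apply, (hB m m').2 h, smul_zero]⟩

end tuples

/-! ### the seam -/

section defs

variable {K : Type} [Field K] {n c : ℕ} {d : Fin c → ℕ}

/-- The plane with the frame `P` through `x`, normalised at the coordinates `t`. The tuples which
vanish on the plane move neither the point nor the plane; the variations `W` and `V(A F_m')` are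
zero; the tuples which vanish on a line through the point have a variation of rank at least two.
`DG D G` is the derivation `D_G`. -/
structure Pl (D : DSys K n c d) (x : Fin (n + 1) → K) (t : Fin 3 → Fin (n + 1))
    (P : Fin 3 → Fin (n + 1) → K) : Prop where
  comm : Lines.Comm D
  h0 : ∀ m, eval x (D.F m) = 0
  w0 : W0 D x
  wB : ∀ m m' (A : MvPolynomial (Fin (n + 1)) K), d m' ≤ d m → A.IsHomogeneous (d m - d m') →
    ∀ f, DG D (Pi.single m (A * D.F m')) (x f) = 0
  inj : Function.Injective t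
  Pt : ∀ i j, P i (t j) = if i = j then 1 else 0
  x0 : x (t 0) = 1
  xP : ∀ f, x f = ∑ i, P i f * x (t i)
  int : ∀ G : Fin c → MvPolynomial (Fin (n + 1)) K, (∀ m, (G m).IsHomogeneous (d m)) →
    (∀ m, ssub P (G m) = 0) → Fix D x P G
  ln : ∀ y κ : Fin (n + 1) → K, LinearIndependent K ![x, y] →
    ∃ G : Fin c → MvPolynomial (Fin (n + 1)) K, (∀ m, (G m).IsHomogeneous (d m)) ∧
      (∀ m, lineP (G m) x y = 0) ∧ (fun f => DG D G (x f)) ∉ Submodule.span K {x, κ}

theorem Pl.plC {D : DSys K n c d} {x : Fin (n + 1) → K} {t : Fin 3 → Fin (n + 1)}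
    {P : Fin 3 → Fin (n + 1) → K} (h : Pl D x t P) : PlC D x t P :=
  ⟨h.comm, h.Pt, h.int⟩

/-- The plane type over an algebraically closed field. -/
structure PlA (k : Subfield K) (D : DSys K n c d) (x : Fin (n + 1) → K) (t : Fin 3 → Fin (n + 1))
    (P : Fin 3 → Fin (n + 1) → K) : Prop extends Pl D x t P where
  kF : ∀ m I, coeff I (D.F m) ∈ k
  kalg : ∀ (z : K) (p : Polynomial K), p ≠ 0 → (∀ i, p.coeff i ∈ k) → p.eval z = 0 → z ∈ k
  xk : ∃ i, x i ∉ k

/-- the restriction of the equations to the plane -/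
noncomputable def fP (D : DSys K n c d) (P : Fin 3 → Fin (n + 1) → K) : T3 K c := rs P D.F

/-- the properties of `RC` used in the algebraic part; `y` is the point in the frame -/
structure RT (d : Fin c → ℕ) (y : Fin 3 → K) (R : Submodule K (T3 K c)) : Prop where
  y0 : y 0 = 1
  le : R ≤ ST K d
  van : ∀ g ∈ R, ∀ m, eval y (g m) = 0
  dim : Module.finrank K R + (3 * c + 5) = Module.finrank K (ST K d)
  line : ∀ z : MvPolynomial (Fin 3) K, z.IsHomogeneous 1 → z ≠ 0 →
    Module.finrank K (ST K d) ≤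
      Module.finrank K (R ⊔ mulC z (fun m => d m - 1) : Submodule K (T3 K c)) + (2 * c + 2)

/-- the matrix of `E` in the frame `P` -/
def mat (t : Fin 3 → Fin (n + 1)) (P : Fin 3 → Fin (n + 1) → K)
    (E : Fin (n + 1) → Fin (n + 1) → K) : Fin 3 → Fin 3 → K :=
  fun j i => ∑ q, E (t j) q * P i q

/-- the restriction to the plane of `(e * F) m`, `e : P i ↦ e i` -/
noncomputable def mvt (D : DSys K n c d) (P : Fin 3 → Fin (n + 1) → K)
    (e : Fin 3 → Fin (n + 1) → K) : T3 K c :=
  fun m => ∑ j, X j * ∑ p, C (e j p) * ssub P (pderiv p (D.F m))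

/-- the pairs `(e, B)` with `(e * F)|plane + B f` in `q S^(d - 2)` -/
noncomputable def kk (D : DSys K n c d) (P : Fin 3 → Fin (n + 1) → K)
    (q : MvPolynomial (Fin 3) K) :
    Submodule K ((Fin 3 → Fin (n + 1) → K) × (Fin c → Fin c → MvPolynomial (Fin 3) K)) where
  carrier := {a | a.2 ∈ BF K (Fin 3) d ∧
    mvt D P a.1 + bmul a.2 (fP D P) ∈ mulC q (fun m => d m - 2)}
  add_mem' := by
    rintro a b ⟨ha, ha'⟩ ⟨hb, hb'⟩
    refine ⟨add_mem ha hb, ?_⟩
    have h : mvt D P (a + b).1 + bmul (a + b).2 (fP D P) =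
        (mvt D P a.1 + bmul a.2 (fP D P)) + (mvt D P b.1 + bmul b.2 (fP D P)) := by
      funext m
      simp only [mvt, bmul, Prod.fst_add, Prod.snd_add, Pi.add_apply, map_add, add_mul,
        Finset.sum_add_distrib, mul_add]
      ring
    rw [h]
    exact add_mem ha' hb'
  zero_mem' := by
    refine ⟨zero_mem _, ?_⟩
    have h : mvt D P (0 : Fin 3 → Fin (n + 1) → K) +
        bmul (0 : Fin c → Fin c → MvPolynomial (Fin 3) K) (fP D P) = 0 := by
      funext m
      simp [mvt, bmul]
    change mvt D P 0 + bmul 0 (fP D P) ∈ _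
    rw [h]
    exact zero_mem _
  smul_mem' := by
    rintro e a ⟨ha, ha'⟩
    refine ⟨Submodule.smul_mem _ e ha, ?_⟩
    have h : mvt D P (e • a).1 + bmul (e • a).2 (fP D P) =
        e • (mvt D P a.1 + bmul a.2 (fP D P)) := by
      funext m
      simp only [mvt, bmul, Prod.smul_fst, Prod.smul_snd, Pi.smul_apply, Pi.add_apply,
        smul_eq_mul, map_mul, smul_add, Finset.smul_sum, smul_eq_C_mul, mul_assoc,
        Finset.mul_sum]
      congr 1
      refine Finset.sum_congr rfl fun j _ => Finset.sum_congr rfl fun p _ => ?_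
      ring
    rw [h]
    exact Submodule.smul_mem _ e ha'

/-- the data of a configuration with integer coefficients, up to a change of the frame and of the
equations -/
structure Cfg (d : Fin c → ℕ) (q : MvPolynomial (Fin 3) K) (f : T3 K c) (y : Fin 3 → K)
    (g : Fin 3 → Fin 3 → K) (B B' : Fin c → Fin c → MvPolynomial (Fin 3) K)
    (q0 : MvPolynomial (Fin 3) ℤ) (f0 : Fin c → MvPolynomial (Fin 3) ℤ) (y0 : Fin 3 → ℤ)
    (a b : K) : Prop where
  gi : LinearIndependent K g
  a0 : a ≠ 0
  hq : ssub g q = C a * MvPolynomial.map (Int.castRingHom K) q0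
  hB : B ∈ BF K (Fin 3) d
  hB' : B' ∈ BF K (Fin 3) d
  inv : ∀ m m', ∑ j, B' m j * B j m' = if m = m' then 1 else 0
  hf : bmul B (fun m => ssub g (f m)) - (fun m => MvPolynomial.map (Int.castRingHom K) (f0 m)) ∈
    mulC (MvPolynomial.map (Int.castRingHom K) q0) (fun m => d m - 2)
  hy : ∀ j, y j = b * ∑ i, (y0 i : K) * g i j

/-- a space of pairs `(L, B)` which fix the point `y`, the conic `q` and `f` modulo `q` -/
structure Stb (d : Fin c → ℕ) (q : MvPolynomial (Fin 3) K) (f : T3 K c) (y : Fin 3 → K)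
    (M : Submodule K ((Fin 3 → Fin 3 → K) × (Fin c → Fin c → MvPolynomial (Fin 3) K))) :
    Prop where
  dim : Module.finrank K (BF K (Fin 3) d) + 2 ≤ Module.finrank K M
  bf : ∀ a ∈ M, a.2 ∈ BF K (Fin 3) d
  fy : ∀ a ∈ M, ∃ e, ∀ j, ∑ i, a.1 j i * y i = e * y j
  fq : ∀ a ∈ M, ∃ e, af a.1 q = C e * q
  ff : ∀ a ∈ M, (fun m => af a.1 (f m)) + bmul a.2 f ∈ mulC q (fun m => d m - 2)

end defs

end Pool.Agent.T2C
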