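import Pool.Agent.Lib.MP_c7af3c_ag.T2C.IfaceA
import Pool.Agent.Lib.MP_c7af3c_ag.T2C.IfaceB

/-!
# MP_c7af3c_ag, project T2C: the seam between the two parts and the assembly
-/

set_option autoImplicit false

namespace Pool.Agent.T2C

open MvPolynomial Pool.Agent.Gen Pool.Agent.Sharp Pool.Agent.Edge
open Pool.Agent.T2 (Fk Rac lnf Sizes Sit)

/-- Row SEAM: the plane type from BETA and LINE. -/
def SeamStatement : Prop := ∀ (Ω : Type) [Field Ω] [CharZero Ω] (k : Subfield Ω)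
  (Γ : Type) [LinearOrderedCommGroupWithZero Γ] (S : Sizes Ω k Γ) (n c : ℕ) (d : Fin c → ℕ)
  (D : DSys Ω n c d) (x : Fin (n + 1) → Ω) (j0 : Fin (n + 1)), (∀ m, 1 ≤ d m) →
  Sit S D x j0 → (∀ u, Bc D x k u → u ∈ Submodule.span Ω {x}) →
  (∀ y κ : Fin (n + 1) → Ω, LinearIndependent Ω ![x, y] →
    ∃ G : TP Ω n c, Lines.Hom d G ∧ Lines.OnLine x y G ∧ VT D x G ∉ Submodule.span Ω {x, κ}) →
  ∀ (t : Fin (2 + 1) → Fin (n + 1)) (P : Fin (2 + 1) → Fin (n + 1) → Ω), Cht x j0 t P →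
  (∀ A : TP Ω n c, Adm d A → ∀ f, VT D x (mulT A (lam t P f)) = 0) →
  (∀ A : TP Ω n c, Adm d A → ∀ f i, VT D (P i) (mulT A (lam t P f)) = 0) →
  Pl D x t P

/-- The plane type is impossible for the equations of degrees `d`. -/
def PlaneAt (n c : ℕ) (d : Fin c → ℕ) : Prop := ∀ (Ω : Type) [Field Ω] [CharZero Ω]
  (k : Subfield Ω) (Γ : Type) [LinearOrderedCommGroupWithZero Γ] (S : Sizes Ω k Γ)
  (D : DSys Ω n c d) (x : Fin (n + 1) → Ω) (t : Fin 3 → Fin (n + 1))
  (P : Fin 3 → Fin (n + 1) → Ω), Sit S D x (t 0) → Pl D x t P →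
  ((∀ m, d m = 2 → Edge.H65.ssub P (D.F m) = 0) → (∀ m, d m ≠ 5) → ∃ i f, P i f ∉ k) → False

/-- the rows of part (A) which are used in the case tree -/
def RowsA (Y : Prop) : Prop := C2.LdStatement → C2.DexStatement → KerStatement → LocStatement →
  TaubStatement → HullStatement → VanbStatement → W2Statement → WordbStatement →
  Ann0Statement → Ann1Statement → NoplStatement → No3Statement → RegStatement →
  ExtaStatement → CoreaStatement → EndaStatement → K25Statement → AsmaStatement →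
  LineStatement → Rk1Statement → AtkStatement → BetaStatement → SeamStatement → Y

/-- Row ASM2: the height inequality for the equations of degrees `d`. -/
def Asm2Statement : Prop := RowsA (T2.Ultra2Statement →
  ∀ (n c : ℕ) (d : Fin c → ℕ), n = c + 3 → ∑ m, d m = n + 2 → (∀ m, 2 ≤ d m) → 2 ≤ c →
    T2.HL5 n c d → PlaneAt n c d → ∀ j0 : Fin (n + 1), HBE n c d j0)

end Pool.Agent.T2C
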